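import Pool.Agent.Lib.DR.Glue2
import Pool.Agent.Lib.DR.B_UNIV
import Pool.Agent.Lib.DR.B_FOX
import Pool.Agent.Lib.DR.B_UNI
import Pool.Agent.Lib.DR.B_FAM
import Pool.Agent.Lib.DR.B_VAN
import Pool.Agent.Lib.DR.B_AB
import Pool.Agent.Lib.DR.B_ETA
import Pool.Agent.Lib.DR.B_LIFT
import Pool.Agent.Lib.DR.B_TENS
import Pool.Agent.Lib.DR.B_CONV
import Pool.Agent.Lib.DR.B_SH1
import Pool.Agent.Lib.DR.B_SH3
import Pool.Agent.Lib.DR.B_FLAT
import Pool.Agent.Lib.DR.B_BND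
import Pool.Agent.Lib.DR.B_DIAG
import Pool.Agent.Lib.DR.B_ARR
import Pool.Agent.Lib.DR.B_CHAIN
import Pool.Agent.Lib.DR.B_MAT
import Pool.Agent.Lib.DR.B_QQ
import Pool.Agent.Lib.DR.B_PROD
import Pool.Agent.Lib.DR.B_REC
import Pool.Agent.Lib.DR.B_MSW
import Pool.Agent.Lib.DR.B_INJ
import Pool.Agent.Lib.DR.B_COUNT

set_option autoImplicit false

open Pool.Agent.DR

universe v

theorem Pool.Agent.Results.MP_c890ed_al.DropOne.result (n : ℕ) :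
    ∃ (G : Finset (List ℕ)) (c : List Bool → List ℕ → ℤ),
      (∀ k, k ∈ G ↔ (∀ j ∈ k, 2 ≤ j) ∧ k.sum = n + 1) ∧ G.card = Nat.fib n ∧
      (∀ w : List Bool, w.length = n + 1 → w.head? = some false → w.getLast? = some true →
        ∀ N : ℕ, 1 ≤ N → (-1) ^ w.count true * dia N w (N - 1) =
          ∑ k ∈ G, c w k * ((-1) ^ k.length * mhs k N)) ∧
      ∀ (R : Type v) [CommRing R] (Φ : List Bool → R), Φ [] = 1 → Pentagon Φ →
        ∀ w : List Bool, w.length = n + 1 → Φ w = ∑ k ∈ G, c w k • Φ (idx k) :=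
  main_of2 st_UNIV st_FOX st_UNI st_FAM st_VAN st_AB st_ETA st_LIFT st_TENS st_CONV st_SH1 st_SH3
    (t_CHAIN st_FLAT st_BND st_DIAG st_ARR) (t_SPAN (t_REC st_MAT st_QQ st_PROD)) st_MSW st_INJ
    st_COUNT n
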