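import Pool.Agent.Lib.DD.GU3
import Pool.Agent.Lib.DD.A1Fin65
import Pool.Agent.Lib.DD.A2_FIN

set_option autoImplicit false

open Pool.Agent.DD.GStmt

theorem Pool.Agent.Results.MP_c890ed_al.GroupsIso.result :
    (∀ (R : Type) [CommRing R] [Algebra ℚ R], Set.BijOn th (GT R) (DS R) ∧
      ∀ Φ Ψ Θ : List Bool → R, Comp Φ Ψ Θ → Comp (th Φ) (th Ψ) (th Θ)) ∧
    (∃ c, MotHom c) ∧
    ∀ c, MotHom c → ∀ (R : Type) [CommRing R] [Algebra ℚ R],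
      Set.BijOn (M c) {g : List ℕ → R | GrpLike g} (MZ c R) ∧ MZ c R = DS R :=
  Pool.Agent.DD.GU.final_of_A Pool.Agent.DD.F.st_A1 Pool.Agent.DD.F.st_A2
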