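import Pool.Agent.Lib.DD.Hof12

set_option autoImplicit false

open Pool.Agent.DR Pool.Agent.DD

universe v

theorem Pool.Agent.Results.MP_c890ed_al.HoffmanSpan.result (n : ℕ) :
    ∃ (G : Finset (List ℕ)) (d : ℤ) (c : List Bool → List ℕ → ℤ),
      (∀ k, k ∈ G ↔ (∀ j ∈ k, j = 2 ∨ j = 3) ∧ k.sum = n) ∧ G.card = zag n ∧ Odd d ∧
      ∀ (R : Type v) [CommRing R] (Φ : List Bool → R), Φ [] = 1 → Pentagon Φ →
        ∀ w : List Bool, w.length = n → d • Φ w = ∑ k ∈ G, c w k • Φ (idx k) := by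
  obtain ⟨G, d, c, h1, h2, h3, h4⟩ := st_HOF.{v} n
  exact ⟨G, d, c, h1, h2, h3, fun R _ Φ g1 g => h4 R Φ g1 (st_LIFT R Φ g)⟩
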