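import Pool.Agent.Lib.DD.PZ4

set_option autoImplicit false

open Pool.Agent.DD.GStmt

theorem Pool.Agent.Results.MP_c890ed_al.PeriodIso.result :
    (∀ (R : Type) [CommRing R] [Algebra ℚ R], Set.BijOn th (GT R) (DS R) ∧
      ∀ Φ Ψ Θ : List Bool → R, Comp Φ Ψ Θ → Comp (th Φ) (th Ψ) (th Θ)) ∧
    (∃ c : List Bool → List ℕ →₀ ℚ,
      (∀ w, ∀ u ∈ (c w).support, (u.map fun k => 2 * k + 3).sum = w.length) ∧
      ∀ (R : Type) [CommRing R] [Algebra ℚ R],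
        Set.BijOn (M c) {g : List ℕ → R | GrpLike g} (GT R) ∧ ∀ g h : List ℕ → R,
          GrpLike g → GrpLike h → Comp (M c g) (M c h) (M c (conv g h))) ∧
    (∃! Z, IsMZV Z) ∧
    ∀ Z, IsMZV Z → ∀ (R : Type) [CommRing R] [Algebra ℚ R], GMZ Z R = GT R :=
  Pool.Agent.DD.PZ.final
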